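import Pool.Agent.Q296.PO.Concl

/-!
# MP_d42654_co, Q1

Monomials in `n` variables are exponent vectors `Fin n → ℕ`, divisibility is the pointwise order.
The Hilbert function of `K[x₁,…,xₙ]/I` for a monomial ideal `I` counts, degree by degree, the
monomials outside `I`; these form an order ideal (a down-closed set).
-/

set_option autoImplicit false

namespace Pool.Agent.Results.MP_d42654_co.ComplementaryIsSumOfMVectors

open Finset

/-- degree of a monomial -/
def degree {n : ℕ} (x : Fin n → ℕ) : ℕ := ∑ i, x i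

/-- order ideals of monomials: closed under taking divisors -/
def IsOrderIdeal {n : ℕ} (E : Finset (Fin n → ℕ)) : Prop := ∀ x ∈ E, ∀ y, y ≤ x → y ∈ E

/-- the number of monomials of degree `q` in `E` -/
def hilbert {n : ℕ} (E : Finset (Fin n → ℕ)) (q : ℕ) : ℕ := (E.filter (fun x => degree x = q)).card

/-- M-vectors (extended by zeros): Hilbert functions of finite-dimensional monomial algebras, that
is, degree counts of finite nonempty order ideals of monomials -/
def IsMVector (h : ℕ → ℕ) : Prop :=
  ∃ (n : ℕ) (E : Finset (Fin n → ℕ)), E.Nonempty ∧ IsOrderIdeal E ∧ h = hilbert E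

/-- pure O-sequences with top degree `d`: Hilbert functions of finite-dimensional level monomial
algebras with top degree `d`, that is, degree counts of finite order ideals `X` of monomials which
have an element of degree `d` and in which every monomial killed by all the variables (all its
multiples `x · x_i` are outside `X`) has degree `d` -/
def IsPureOSequence (d : ℕ) (a : ℕ → ℕ) : Prop :=
  ∃ (n : ℕ) (X : Finset (Fin n → ℕ)), IsOrderIdeal X ∧ (∃ x ∈ X, degree x = d) ∧
    (∀ x ∈ X, (∀ i, Function.update x i (x i + 1) ∉ X) → degree x = d) ∧ a = hilbert X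

/-- **Q1 is true**: the complementary vector of every pure O-sequence is a sum of M-vectors. -/
theorem result (d : ℕ) (_hd : 1 ≤ d) (a : ℕ → ℕ) (ha : IsPureOSequence d a) :
    ∃ hs : List (ℕ → ℕ), (∀ h ∈ hs, IsMVector h) ∧
      ∀ q, q ≤ (d - 1) / 2 →
        (a (d - q) : ℤ) - (a q : ℤ) = (hs.map (fun h => (h q : ℤ))).sum := by
  classical
  obtain ⟨n, X, hX, ⟨x0, hx0, hx0d⟩, hsoc, rfl⟩ := ha
  obtain ⟨G, hG⟩ : ∃ G, G = X.filter (fun x => degree x = d) := ⟨_, rfl⟩
  have habove : ∀ x ∈ X, ∃ y ∈ X, x ≤ y ∧ degree y = d := by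
    intro x hx
    obtain ⟨y, hy, hmax⟩ := Finset.exists_max_image (X.filter (fun y => x ≤ y)) degree
      ⟨x, mem_filter.2 ⟨hx, le_refl x⟩⟩
    rw [mem_filter] at hy
    refine ⟨y, hy.1, hy.2, hsoc y hy.1 (fun i hi => ?_)⟩
    have h1 := hmax (Function.update y i (y i + 1)) (mem_filter.2
      ⟨hi, hy.2.trans (Pool.Agent.Q296.PO.le_up y i)⟩)
    have h2 : degree (Function.update y i (y i + 1)) = degree y + 1 :=
      Pool.Agent.Q296.PO.deg_up y i
    omega
  have hXG : X = Pool.Agent.Q296.PO.XG G := by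
    ext x
    rw [Pool.Agent.Q296.PO.mem_XG]
    constructor
    · intro hx
      obtain ⟨y, h1, h2, h3⟩ := habove x hx
      exact ⟨y, by rw [hG, mem_filter]; exact ⟨h1, h3⟩, h2⟩
    · rintro ⟨g, hg, hxg⟩
      rw [hG, mem_filter] at hg
      exact hX g hg.1 x hxg
  obtain ⟨hs, h1, h2⟩ := Pool.Agent.Q296.PO.main_union (d := d) G (by
    intro g hg
    rw [hG, mem_filter] at hg
    exact hg.2)
  rw [← hXG] at h2
  refine ⟨hs, fun h hh => ?_, fun q hq => ?_⟩
  · obtain ⟨m, E, e1, e2, e3⟩ := h1 h hh
    exact ⟨m, E, e1, e2, funext e3⟩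
  · have e1 : hilbert X (d - q) = hilbert X q + (hs.map (fun h => h q)).sum := h2 q hq
    have e2 : (((hs.map (fun h => h q)).sum : ℕ) : ℤ) = (hs.map (fun h => (h q : ℤ))).sum := by
      rw [Nat.cast_list_sum, List.map_map]
      rfl
    rw [← e2, e1, Nat.cast_add]
    ring

end Pool.Agent.Results.MP_d42654_co.ComplementaryIsSumOfMVectors
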